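import Pool.Agent.K9h8.Hes.Mid3
import Pool.Agent.TH958.T4.Fin

/-!
The Birch and Swinnerton-Dyer conjecture for the members of the Hesse pencil through an arbitrary
elliptic curve over a global function field (the elliptic curves with the same points of order
three), and over the pro-`3` towers.
-/

set_option autoImplicit false
set_option linter.all false
set_option maxHeartbeats 4000000

open Polynomial FF Module Pool.Agent.W343.BSD

namespace Pool.Agent.Results.MP_48b749_nt.HessePencilTransfer

/-- The coefficients of the member `E_s : y ^ 2 = x ^ 3 + A(s) x + B(s)` of the Hesse pencil through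
`E : y ^ 2 = x ^ 3 + a x + b`; the members have the same points of order three as `E`. -/
def pencilA {F : Type} [Field F] (a b s : F) : F :=
  a - 18 * b * s - 18 * a ^ 2 * s ^ 2 + 54 * a * b * s ^ 3 - 27 * (a ^ 3 + 9 * b ^ 2) * s ^ 4

/-- The second coefficient `B(s)`. -/
def pencilB {F : Type} [Field F] (a b s : F) : F :=
  b + 4 * a ^ 2 * s - 45 * a * b * s ^ 2 + 270 * b ^ 2 * s ^ 3 + 135 * a ^ 2 * b * s ^ 4 +
    (486 * a * b ^ 2 + 108 * a ^ 4) * s ^ 5 - (243 * a ^ 3 * b + 1458 * b ^ 3) * s ^ 6

section places

variable {k K : Type} [Field k] [Field K] [Algebra k K]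

/-- The curve `y ^ 2 = x ^ 3 + a x + b` has good reduction at `v`. -/
def Good (v : Place k K) (a b : K) : Prop := v.ord (minDisc v a b) = 0

/-- The curve has split multiplicative reduction at `v`. -/
def Split (v : Place k K) (a b : K) : Prop := ¬ Good v a b ∧ S.trace v a b = 1

/-- The curve has nonsplit multiplicative reduction at `v`, or good reduction and the number
`q_v + 1 - a_v` of points of the reduction over the residue field is prime to three. -/
def Admissible (v : Place k K) (a b : K) : Prop :=
  (¬ Good v a b ∧ S.trace v a b = -1) ∨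
    (Good v a b ∧ ¬ (3 : ℤ) ∣ Nat.card (S.Res v) + 1 - S.trace v a b)

/-- The order of vanishing modulo three of a polynomial at the central point `1 / q`, where `q` is the
number of elements of `k`. -/
noncomputable def orderModThree (k : Type) (P : ℤ[X]) : ℕ :=
  (P.map (Int.castRingHom (ZMod 3))).rootMultiplicity (((Nat.card k : ℕ) : ZMod 3)⁻¹)

open Classical in
/-- The weight of a place: `3 ^ v₃(deg v)` at the places of split multiplicative reduction, `0` at
the others. -/
noncomputable def weight (v : Place k K) (a b : K) : ℕ :=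
  if Split v a b then 3 ^ padicValNat 3 (S.deg v) else 0

/-- The place `w` of `L` lies above the place `v` of `K`, with ramification index `e`. -/
def LiesOver {L : Type} [Field L] [Algebra k L] [Algebra K L]
    (w : Place k L) (v : Place k K) (e : ℕ) : Prop :=
  0 < e ∧ ∀ f : K, w.ord (algebraMap K L f) = e * v.ord f

end places

/-- `L` is a finite Galois extension of `K` of degree a power of three in which only the places in `T`
are ramified. -/
structure IsProThree (k : Type) {K : Type} (L : Type) [Field k] [Field K] [Algebra k K] [Field L]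
    [Algebra k L] [Algebra K L] (T : Set (Place k K)) : Prop where
  finite : FiniteDimensional K L
  galois : IsGalois K L
  power : ∃ n : ℕ, finrank K L = 3 ^ n
  unramified : ∀ (v : Place k K) (w : Place k L) (e : ℕ), LiesOver w v e → v ∉ T → e = 1

open Classical in
/-- The rank of `E : y ^ 2 = x ^ 3 + a x + b` over `M` is equal to the order of vanishing of its
`L`-function at the central point `T = 1 / |kM|`, and both are zero: if the `L`-function is an
integral polynomial with a zero of order `r` at the central point and if the rank is at most `r`,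
then `r` and the rank are zero. -/
def RankAndOrderZero (kM : Type) {M : Type} [Field kM] [Field M] [Algebra kM M] (a b : M) : Prop :=
  ∀ r : ℕ, Pool.Agent.W313.Gr.HasOrder kM a b r →
    Module.rank ℤ (⟨0, 0, 0, a, b⟩ : WeierstrassCurve M).toAffine.Point ≤ r →
      r = 0 ∧ Module.rank ℤ (⟨0, 0, 0, a, b⟩ : WeierstrassCurve M).toAffine.Point = 0

/-- Let `K` be the function field of a curve over the field `k` with `q` elements, `q` prime to `6` and
congruent to `1` modulo three, let `E : y ^ 2 = x ^ 3 + a x + b` be an arbitrary elliptic curve over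
`K`, and let `E_s` be the member of parameter `s` in `K` of the Hesse pencil through `E`. Let
`L(T, E) = P(T)` and `L(T, E_s)` be integral polynomials. Let `B` be the set of the
places of bad reduction of `E` and `N` the set of the new ones, where `E` has good and `E_s` bad
reduction. Let `W` be the sum of the order of vanishing modulo three of `P` at `1 / q`, of the weights
of the places in `B` for `E` and of the weights of the places in `N` for `E_s`.

Let `T` be a set of admissible places for `E_s`, and let `M` be any finite extension of `K` in the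
maximal pro-`3` extension of `K` unramified outside `T`, with field of constants `kM`. The order of
vanishing of `L(T, E_s/M)` at the central point is at most `W [M : K] / [kM : k]`. In particular, if
`P(1 / q)` is not zero modulo three and no place is of split multiplicative reduction for `E` or is in
`N` and of split multiplicative reduction for `E_s`, then `W = 0`, and the rank of `E_s(M)` and the
order of vanishing of `L(T, E_s/M)` are equal to zero. -/
theorem result (k K : Type) [Field k] [Finite k] (h6 : (6 : k) ≠ 0) (hq : 3 ∣ Nat.card k - 1)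
    [Field K] [Algebra k K] (hK : IsCurveField k K) (a b s : K) (hΔ : 4 * a ^ 3 + 27 * b ^ 2 ≠ 0)
    (hs : 4 * pencilA a b s ^ 3 + 27 * pencilB a b s ^ 2 ≠ 0) (P : ℤ[X])
    (hP : S.Lfun k a b = (P : PowerSeries ℤ))
    (hQ : ∃ Q : ℤ[X], S.Lfun k (pencilA a b s) (pencilB a b s) = (Q : PowerSeries ℤ)) :
    ∃ (B N : Finset (Place k K)) (W : ℕ), (∀ v, v ∈ B ↔ ¬ Good v a b) ∧
      (∀ v, v ∈ N ↔ Good v a b ∧ ¬ Good v (pencilA a b s) (pencilB a b s)) ∧
      W = orderModThree k P + ∑ v ∈ B, weight v a b +
        ∑ v ∈ N, weight v (pencilA a b s) (pencilB a b s) ∧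
      ∀ T : Set (Place k K), (∀ v ∈ T, Admissible v (pencilA a b s) (pencilB a b s)) →
      ∀ (L : Type) [Field L] [Algebra k L] [Algebra K L] [IsScalarTower k K L],
        IsProThree k L T →
      ∀ (kM M : Type) [Field kM] [Finite kM] [Field M] [Algebra kM M] [Algebra k kM] [Algebra k M]
        [Algebra K M] [Algebra M L] [IsScalarTower k kM M] [IsScalarTower k K M]
        [IsScalarTower K M L], IsCurveField kM M →
        (∀ m : ℕ, S.VanishesTo kM (algebraMap K M (pencilA a b s))
          (algebraMap K M (pencilB a b s)) m → finrank k kM * m ≤ finrank K M * W) ∧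
        (orderModThree k P = 0 → (∀ v : Place k K, ¬ Split v a b) →
          (∀ v : Place k K, Good v a b → ¬ Split v (pencilA a b s) (pencilB a b s)) →
          W = 0 ∧
          RankAndOrderZero kM (algebraMap K M (pencilA a b s)) (algebraMap K M (pencilB a b s))) := by
  classical
  obtain ⟨Q, hQ⟩ := hQ
  have eA : pencilA a b s = Pool.Agent.N874.HP.hA a b 1 s := by
    unfold pencilA Pool.Agent.N874.HP.hA; ring
  have eB : pencilB a b s = Pool.Agent.N874.HP.hB a b 1 s := by
    unfold pencilB Pool.Agent.N874.HP.hB; ring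
  rw [eA, eB] at hs hQ ⊢
  set A' := Pool.Agent.N874.HP.hA a b 1 s with hA'
  set B' := Pool.Agent.N874.HP.hB a b 1 s with hB'
  have hFF : FF.IsFF k K := ⟨hK.essFiniteType, hK.trdeg_eq_one⟩
  have hl : Fact (Nat.Prime 3) := ⟨Nat.prime_three⟩
  have h2 : (2 : k) ≠ 0 := by
    have := Pool.Agent.W343.BSD.two_ne h6
    exact_mod_cast this
  have h3 : (3 : k) ≠ 0 := by
    have := Pool.Agent.W343.BSD.three_ne h6
    exact_mod_cast this
  have hqm : ((Nat.card k : ℕ) : ZMod 3) = 1 := by
    have h1 : 1 ≤ Nat.card k := Nat.card_pos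
    have h4 : ((Nat.card k - 1 : ℕ) : ZMod 3) = 0 := (ZMod.natCast_eq_zero_iff _ _).2 hq
    rw [Nat.cast_sub h1, Nat.cast_one] at h4
    linear_combination h4
  have hx1 : ((Nat.card k : ℕ) : ZMod 3)⁻¹ = 1 := by rw [hqm, inv_one]
  have hbf := bad_finite (k := k) (K := K) hΔ
  have hbf' := bad_finite (k := k) (K := K) hs
  have hgood : ∀ (a b : K), 4 * a ^ 3 + 27 * b ^ 2 ≠ 0 → ∀ v : Place k K,
      v.red (minDisc v a b) = 0 ↔ ¬ Good v a b := by
    intro a b hΔ v
    unfold Good
    rw [S.ord_disc_iff v hΔ, not_not]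
  set BB := hbf.toFinset with hBB
  set NN := hbf'.toFinset.filter (fun v => Good v a b) with hNN
  have hmB : ∀ v, v ∈ BB ↔ ¬ Good v a b := by
    intro v
    rw [hBB, Set.Finite.mem_toFinset]
    exact hgood a b hΔ v
  have hmN : ∀ v, v ∈ NN ↔ Good v a b ∧ ¬ Good v A' B' := by
    intro v
    rw [hNN, Finset.mem_filter, Set.Finite.mem_toFinset, and_comm]
    exact and_congr Iff.rfl (hgood A' B' hs v)
  have hw : ∀ (a b : K), 4 * a ^ 3 + 27 * b ^ 2 ≠ 0 → ∀ v : Place k K, ¬ Good v a b →
      (locML 3 v a b).rootMultiplicity 1 = weight v a b := by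
    intro a b hΔ v hv
    have h4 : S.trace v a b = 1 ∨ S.trace v a b = 0 ∨ S.trace v a b = -1 := by
      rcases Pool.Agent.K9h8.Hes.trace_cases h6 hΔ hv with ⟨-, h⟩ | ⟨-, h | h⟩
      · exact Or.inr (Or.inl h)
      · exact Or.inl h
      · exact Or.inr (Or.inr h)
    rw [Pool.Agent.K9h8.Hes.rm_locML_bad hΔ hv h4]
    unfold weight
    have h5 : Split v a b ↔ S.trace v a b = 1 := ⟨fun h => h.2, fun h => ⟨hv, h⟩⟩
    rw [S.deg_eq]
    simp only [h5]
  have horders := Pool.Agent.K9h8.Hes.orders h2 h3 hqm hΔ hs (by rw [← S.lfun_eq hΔ]; exact hP)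
    (by rw [← S.lfun_eq hs]; exact hQ) BB NN hmB hmN 1
  rw [Finset.sum_congr rfl (fun v hv => hw a b hΔ v ((hmB v).1 hv)),
    Finset.sum_congr rfl (fun v hv => hw A' B' hs v ((hmN v).1 hv).2)] at horders
  have hsum : ∑ v ∈ BB, orderModThree k (S.locFactor v A' B') =
      ∑ v ∈ BB, (locML 3 v A' B').rootMultiplicity 1 := by
    refine Finset.sum_congr rfl fun v _ => ?_
    unfold orderModThree
    rw [hx1, S.locFactor_eq v hs]
    rfl
  have hform : orderModThree k Q + ∑ v ∈ BB, orderModThree k (S.locFactor v A' B') =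
      orderModThree k P + ∑ v ∈ BB, weight v a b + ∑ v ∈ NN, weight v A' B' := by
    rw [hsum]
    unfold orderModThree
    rw [hx1]
    exact horders
  refine ⟨BB, NN, _, hmB, hmN, rfl, ?_⟩
  intro T hT L _ _ _ _ hL kM M _ _ _ _ _ _ _ _ _ _ _ hM
  have i1 := hL.finite
  have i2 := hL.galois
  obtain ⟨n, hn⟩ := hL.power
  have i3 : FiniteDimensional K M := FiniteDimensional.left K M L
  have i4 : FiniteDimensional M L := FiniteDimensional.right K M L
  have i5 : IsGalois M L := IsGalois.tower_top_of_isGalois K M L
  have i6 : FF.IsFF k M := isFF_of_finite (K := K)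
  have i7 : FF.IsFF k L := isFF_of_finite (K := K)
  have i8 : FF.IsFF kM M := ⟨hM.essFiniteType, hM.trdeg_eq_one⟩
  have i9 : Module.Finite k kM := Module.Finite.of_finite
  have h0 : 0 < finrank k kM := finrank_pos
  have t1 : IsScalarTower k M L := IsScalarTower.of_algebraMap_eq fun x => by
    rw [IsScalarTower.algebraMap_apply k K L, IsScalarTower.algebraMap_apply K M L,
      ← IsScalarTower.algebraMap_apply k K M]
  have hΔM : 4 * algebraMap K M A' ^ 3 + 27 * algebraMap K M B' ^ 2 ≠ 0 := by
    rw [Pool.Agent.W313.Gr.disc_map]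
    exact (_root_.map_ne_zero _).2 hs
  have hram : ∀ (v : Place k K) (w : Place k L) (e : ℕ), Over w v e → e ≠ 1 →
      (locML 3 v A' B').eval (((Nat.card k : ℕ) : ZMod 3)⁻¹) ≠ 0 ∧
        (v.red (minA v A' B') ≠ 0 ∨ v.red (minDisc v A' B') ≠ 0) := by
    intro v w e hov he
    have hvT : v ∈ T := by
      by_contra h
      exact he (hL.unramified v w e hov h)
    rw [hx1]
    rcases hT v hvT with ⟨h4, h5⟩ | ⟨h4, h5⟩
    · rcases Pool.Agent.K9h8.Hes.trace_cases h6 hs h4 with ⟨-, h⟩ | ⟨h7, -⟩
      · rw [h] at h5
        exact absurd h5 (by norm_num)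
      · refine ⟨?_, Or.inl h7⟩
        rw [Pool.Agent.K9h8.Hes.locML_bad hs h4, h5]
        simp only [eval_sub, eval_one, eval_mul, eval_C, eval_pow, eval_X, one_pow, mul_one]
        rw [Int.cast_neg, Int.cast_one]
        intro h8
        exact Pool.Agent.K9h8.Hes.two_ne3 (by linear_combination h8)
    · refine ⟨?_, Or.inr ((S.ord_disc_iff v hs).1 h4)⟩
      rw [Pool.Agent.K9h8.Hes.locML_good hqm hs h4]
      simp only [eval_add, eval_sub, eval_one, eval_mul, eval_C, eval_pow, eval_X, one_pow, mul_one]
      intro h8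
      apply h5
      have h9 : ((Nat.card (S.Res v) : ℕ) : ZMod 3) = 1 := Pool.Agent.N874.HP.card_RF hqm v
      have h10 : (((Nat.card (S.Res v) + 1 - S.trace v A' B' : ℤ)) : ZMod 3) = 0 := by
        push_cast
        rw [h9]
        linear_combination h8
      exact (ZMod.intCast_zmod_eq_zero_iff_dvd _ 3).1 h10
  have hmod : ∀ R : ℤ[X], S.Lfun kM (algebraMap K M A') (algebraMap K M B') =
      (R : PowerSeries ℤ) → finrank k kM * orderModThree kM R ≤
        finrank K M * (orderModThree k P + ∑ v ∈ BB, weight v a b + ∑ v ∈ NN, weight v A' B') := by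
    intro R hR
    rw [S.lfun_eq hΔM] at hR
    have h4 := Pool.Agent.K9h8.Hes.mid_const (k := k) (K := K) (M := M) (L := L) (kM := kM)
      hK.algClosed hn hs hram (by rw [← S.lfun_eq hs]; exact hQ) hR
    refine le_trans h4 (Nat.mul_le_mul_left _ ?_)
    rw [← hform]
    exact Nat.le_add_right _ _
  have hbound : ∀ m : ℕ, S.VanishesTo kM (algebraMap K M A') (algebraMap K M B') m →
      finrank k kM * m ≤ finrank K M * (orderModThree k P + ∑ v ∈ BB, weight v a b +
        ∑ v ∈ NN, weight v A' B') := by
    rintro m ⟨H, hH⟩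
    exact (Nat.mul_le_mul_left _ (Pool.Agent.K9h8.Tow.le_mod (k := k) (K := K) (kM := kM) (M := M)
      (by exact_mod_cast h3) hs hH)).trans (hmod _ hH)
  refine ⟨hbound, fun hP0 hsp hsp' => ?_⟩
  have hW : orderModThree k P + ∑ v ∈ BB, weight v a b + ∑ v ∈ NN, weight v A' B' = 0 := by
    have hs1 : ∑ v ∈ BB, weight v a b = 0 := Finset.sum_eq_zero fun v _ => by
      unfold weight
      rw [if_neg (hsp v)]
    have hs2 : ∑ v ∈ NN, weight v A' B' = 0 := Finset.sum_eq_zero fun v hv => by
      unfold weight
      rw [if_neg (hsp' v ((hmN v).1 hv).1)]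
    rw [hP0, hs1, hs2]
  refine ⟨hW, ?_⟩
  intro r hr hle
  have h1 : r = 0 := by
    obtain ⟨P', hP', hPr⟩ := hr
    obtain ⟨H, hH⟩ := Pool.Agent.TH943.KD.dvd_of_mult (Nat.card_pos (α := kM)).ne' hPr
    have h2 := hbound r ⟨H, by rw [hP', hH]⟩
    rw [hW, mul_zero, Nat.le_zero, mul_eq_zero] at h2
    exact h2.resolve_left h0.ne'
  subst h1
  exact ⟨rfl, le_antisymm (by simpa using hle) (Cardinal.zero_le _)⟩

end Pool.Agent.Results.MP_48b749_nt.HessePencilTransfer
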