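import Pool.Agent.K9h8.Tow.Fin
import Pool.Agent.TH958.T4.Fin

/-!
The Birch and Swinnerton-Dyer conjecture in the pro-`ℓ` towers above an arbitrary elliptic curve of
analytic rank zero over a global function field, for a positive proportion of the primes `ℓ`.
-/

set_option autoImplicit false
set_option linter.all false
set_option maxHeartbeats 4000000

open Polynomial FF Module Pool.Agent.W343.BSD

namespace Pool.Agent.Results.MP_48b749_nt.ProEllTowersEveryCurve

/-- The set contains a positive proportion of the primes: there is a constant `c > 0` such that for all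
large `N` at least `c π(N)` of the primes up to `N` are in the set. -/
def PositiveDensity (A : Set ℕ) : Prop :=
  ∃ c : ℝ, 0 < c ∧ ∃ N₀ : ℕ, ∀ N : ℕ, N₀ ≤ N →
    c * Nat.primeCounting N ≤ Set.ncard {p : ℕ | p ≤ N ∧ p.Prime ∧ p ∈ A}

/-- The polynomial has no positive real zero. -/
def NoPositiveZero (P : ℤ[X]) : Prop := ∀ x : ℝ, 0 < x → aeval x P ≠ 0

/-- The place `w` of `L` lies above the place `v` of `K`, with ramification index `e`. -/
def LiesOver {k K L : Type} [Field k] [Field K] [Algebra k K] [Field L] [Algebra k L] [Algebra K L]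
    (w : Place k L) (v : Place k K) (e : ℕ) : Prop :=
  0 < e ∧ ∀ f : K, w.ord (algebraMap K L f) = e * v.ord f

/-- `K'` is the extension `K k'` of `K` by the constants `k'`, where the degree of `k'` over `k` divides
`(ℓ - 1) / 2`, and `L` is a finite Galois extension of `K'` of degree a power of `ℓ`, in which only the
places of `K` in `T` are ramified. -/
structure IsProEll (k : Type) {K : Type} (k' K' L : Type) [Field k] [Field K] [Algebra k K]
    [Field k'] [Field K'] [Algebra k' K'] [Algebra k k'] [Algebra K K'] [Field L] [Algebra k L]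
    [Algebra K L] [Algebra K' L] (ℓ : ℕ) (T : Set (Place k K)) : Prop where
  curve : IsCurveField k' K'
  constants : finrank K K' = finrank k k'
  degree : finrank k k' ∣ (ℓ - 1) / 2
  finite : FiniteDimensional K' L
  galois : IsGalois K' L
  power : ∃ s : ℕ, finrank K' L = ℓ ^ s
  unramified : ∀ (v : Place k K) (w : Place k L) (e : ℕ), LiesOver w v e → v ∉ T → e = 1

/-- The `L`-function of `E` over the extension `M` of `K`, whose field of constants is `kM`, vanishes at
the central point `T = 1 / |kM|` to order at most `ρ [M : K] / [kM : k]`, that is at most `ρ` times the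
geometric degree of `M` over `K`: if `L(T, E/M) = (1 - |kM| T) ^ m H(T)` with `H` in `ℤ[T]`, then
`[kM : k] m ≤ [M : K] ρ`. -/
def OrderBound (k kM : Type) {K : Type} (M : Type) [Field k] [Field kM] [Algebra k kM] [Field K]
    [Field M] [Algebra kM M] [Algebra K M] (a b : K) (ρ : ℕ) : Prop :=
  ∀ m : ℕ, S.VanishesTo kM (algebraMap K M a) (algebraMap K M b) m →
    finrank k kM * m ≤ finrank K M * ρ

open Classical in
/-- The rank of `E : y ^ 2 = x ^ 3 + a x + b` over `M` is equal to the order of vanishing of its
`L`-function at the central point, and both are zero: if the `L`-function is an integral polynomial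
with a zero of order `r` at the central point and if the rank is at most `r`, then `r` and the rank
are zero. -/
def RankAndOrderZero (kM : Type) {M : Type} [Field kM] [Field M] [Algebra kM M] (a b : M) : Prop :=
  ∀ r : ℕ, Pool.Agent.W313.Gr.HasOrder kM a b r →
    Module.rank ℤ (⟨0, 0, 0, a, b⟩ : WeierstrassCurve M).toAffine.Point ≤ r →
      r = 0 ∧ Module.rank ℤ (⟨0, 0, 0, a, b⟩ : WeierstrassCurve M).toAffine.Point = 0

/-- The central value is a unit at `ℓ`: if `L(T, E/M) = Q(T)` with `Q` in `ℤ[T]`, then `Q(1 / |kM|)` is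
not zero modulo `ℓ`. -/
def UnitValue (ℓ : ℕ) (kM : Type) {M : Type} [Field kM] [Field M] [Algebra kM M] (a b : M) : Prop :=
  ∀ Q : ℤ[X], S.Lfun kM a b = (Q : PowerSeries ℤ) →
    (Q.map (Int.castRingHom (ZMod ℓ))).eval (((Nat.card kM : ℕ) : ZMod ℓ)⁻¹) ≠ 0

/-- Let `K` be the function field of a curve over the field `k` with `q` elements, of characteristic
`p ≥ 5`, and let `E : y ^ 2 = x ^ 3 + a x + b` be an arbitrary elliptic curve over `K` with
`L(T, E/K) = (1 - q T) ^ ρ G(T)`, where `G` has no positive real zero (since the zeros of `L(T, E/K)`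
have absolute value `1 / q`, this says that `ρ` is the order of vanishing). Let `T` be a finite set of
places of `K` at which the Euler factor of `E` has no positive real zero (these are the places of
additive reduction, of nonsplit multiplicative reduction and of good reduction with
`a_v ≠ 2 √ q_v`).

There is a positive proportion of primes `ℓ` with the following properties: the degree of `k(μ_ℓ)`
over `k` divides `(ℓ - 1) / 2`; let `K'` be an extension of `K` by constants of degree dividing
`(ℓ - 1) / 2` (such as `K(μ_ℓ)`) and let `M` be any finite extension of `K` in the maximal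
pro-`ℓ` extension of `K'` unramified outside the places above `T`; then the order of vanishing of
`L(T, E/M)` at the central point is at most `ρ` times the geometric degree of `M` over `K`. In
particular, if `ρ = 0`, the rank of `E(M)` and the order of vanishing are equal to zero, and the
central value of `L(T, E/M)` is prime to `ℓ`. -/
theorem result (p : ℕ) [Fact p.Prime] (hp : 5 ≤ p) (k K : Type) [Field k] [Finite k] [CharP k p]
    [Field K] [Algebra k K] (hK : IsCurveField k K) (a b : K) (hΔ : 4 * a ^ 3 + 27 * b ^ 2 ≠ 0)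
    (ρ : ℕ) (G : ℤ[X])
    (hL : S.Lfun k a b = (((1 - C (Nat.card k : ℤ) * X) ^ ρ * G : ℤ[X]) : PowerSeries ℤ))
    (hG : NoPositiveZero G) (T : Set (Place k K)) (hfin : T.Finite)
    (hT : ∀ v ∈ T, NoPositiveZero (S.locFactor v a b)) :
    PositiveDensity {ℓ : ℕ | ℓ.Prime ∧ orderOf ((Nat.card k : ℕ) : ZMod ℓ) ∣ (ℓ - 1) / 2 ∧
      ∀ (k' K' L : Type) [Field k'] [Finite k'] [Field K'] [Algebra k' K'] [Algebra k k']
        [Algebra k K'] [Algebra K K'] [IsScalarTower k K K'] [IsScalarTower k k' K'] [Field L]
        [Algebra k L] [Algebra K L] [Algebra K' L] [IsScalarTower k K L] [IsScalarTower K K' L],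
        IsProEll k k' K' L ℓ T →
      ∀ (kM M : Type) [Field kM] [Finite kM] [Field M] [Algebra kM M] [Algebra k kM] [Algebra k M]
        [Algebra K M] [Algebra M L] [IsScalarTower k kM M] [IsScalarTower k K M]
        [IsScalarTower K M L], IsCurveField kM M →
        OrderBound k kM M a b ρ ∧
          (ρ = 0 → RankAndOrderZero kM (algebraMap K M a) (algebraMap K M b) ∧
            UnitValue ℓ kM (algebraMap K M a) (algebraMap K M b))} := by
  classical
  have hFF : FF.IsFF k K := ⟨hK.essFiniteType, hK.trdeg_eq_one⟩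
  have h6 : (6 : k) ≠ 0 := Pool.Agent.TH958.T4.six_ne (Fact.out : p.Prime) hp
  have hpp : p.Prime := Fact.out
  have hdens := Pool.Agent.K9h8.Tow.good_density (k := k) hΔ hL hG hfin.toFinset (by
    intro v hv x hx
    have h1 := hT v ((Set.Finite.mem_toFinset _).1 hv) x hx
    rwa [S.locFactor_eq v hΔ] at h1) p
  refine hdens.mono ?_
  rintro ℓ ⟨hℓ, hpℓ, hsq, hgood⟩
  have hℓF : Fact ℓ.Prime := ⟨hℓ⟩
  have hℓk : (ℓ : k) ≠ 0 := by
    rw [Ne, CharP.cast_eq_zero_iff k p]
    intro h
    have := (Nat.prime_dvd_prime_iff_eq hpp hℓ).1 h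
    omega
  have hℓ2 : ℓ ≠ 2 := by omega
  have hodd := hℓ.eq_two_or_odd.resolve_left hℓ2
  have hq0 := card_ne_zero_mod (k := k) hℓk
  have hdvd : (ℓ - 1) / 2 ∣ ℓ - 1 := ⟨2, by omega⟩
  refine ⟨hℓ, ?_, ?_⟩
  · apply orderOf_dvd_of_pow_eq_one
    have h1 := (ZMod.euler_criterion ℓ hq0).1 hsq
    have h2 : ℓ / 2 = (ℓ - 1) / 2 := by omega
    rwa [h2] at h1
  · intro k' K' L _ _ _ _ _ _ _ _ _ _ _ _ _ _ _ hpro kM M _ _ _ _ _ _ _ _ _ _ _ hM
    have i1 : Module.Finite k k' := Module.Finite.of_finite
    have i2 : FiniteDimensional K K' := Module.finite_of_finrank_pos (by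
      rw [hpro.constants]; exact finrank_pos)
    have i3 := hpro.finite
    have i4 := hpro.galois
    obtain ⟨s, hs⟩ := hpro.power
    obtain ⟨ζ, hζ⟩ := Pool.Agent.Y701.R1.exists_prim (l := ℓ) (hpro.degree.trans hdvd)
    have hsquare : ∀ i : ℕ, IsSquare (ζ ^ i * ((Nat.card k : ℕ) : ZMod ℓ)⁻¹) := by
      intro i
      have h1 : IsSquare (ζ ^ i) := Pool.Agent.Y701.R1.isSquare_of_pow hℓ2 hpro.degree (by
        rw [← pow_mul, mul_comm, pow_mul, hζ.pow_eq_one, one_pow])
      exact h1.mul hsq.inv
    have hmod : ∀ Q : ℤ[X], S.Lfun kM (algebraMap K M a) (algebraMap K M b) =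
        (Q : PowerSeries ℤ) → finrank k kM * (Q.map (Int.castRingHom (ZMod ℓ))).rootMultiplicity
          (((Nat.card kM : ℕ) : ZMod ℓ)⁻¹) ≤ finrank K M * ρ := by
      intro Q hQ
      have hL' := hL
      rw [S.lfun_eq hΔ] at hL'
      exact Pool.Agent.K9h8.Tow.bound_mod (k := k) (K := K) (k' := k') (K' := K') (kM := kM)
        (M := M) (L := L) h6 hK.algClosed hpro.curve.algClosed hM.algClosed hpro.constants hΔ hL'
        (by omega) hℓk (hpro.degree.trans hdvd) hζ
        (fun i _ => (hgood _ (hsquare i)).1) T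
        (fun v hv i _ => (hgood _ (hsquare i)).2 v ((Set.Finite.mem_toFinset _).2 hv)) hs
        (fun v w e h => hpro.unramified v w e h) hQ
    have i6 : FiniteDimensional K L := Module.Finite.trans K' L
    have i7 : FiniteDimensional K M := FiniteDimensional.left K M L
    have hbound : OrderBound k kM M a b ρ := by
      rintro m ⟨H, hH⟩
      exact (Nat.mul_le_mul_left _ (Pool.Agent.K9h8.Tow.le_mod (k := k) (K := K) (kM := kM) (M := M)
        hℓk hΔ hH)).trans (hmod _ hH)
    have i5 : Module.Finite k kM := Module.Finite.of_finite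
    have h0 : 0 < finrank k kM := finrank_pos
    refine ⟨hbound, ?_⟩
    rintro rfl
    constructor
    · intro r hr hle
      have h1 : r = 0 := by
        obtain ⟨P, hP, hPr⟩ := hr
        obtain ⟨H, hH⟩ := Pool.Agent.TH943.KD.dvd_of_mult (Nat.card_pos (α := kM)).ne' hPr
        have h2 := hbound r ⟨H, by rw [hP, hH]⟩
        rw [mul_zero, Nat.le_zero, mul_eq_zero] at h2
        exact h2.resolve_left h0.ne'
      subst h1
      exact ⟨rfl, le_antisymm (by simpa using hle) (Cardinal.zero_le _)⟩
    · intro Q hQ hev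
      have h2 := hmod Q hQ
      rw [mul_zero, Nat.le_zero, mul_eq_zero] at h2
      have h3 := h2.resolve_left h0.ne'
      have h4 : FF.IsFF kM M := ⟨hM.essFiniteType, hM.trdeg_eq_one⟩
      have h5 : Q.map (Int.castRingHom (ZMod ℓ)) ≠ 0 := by
        intro h
        have hΔM : 4 * algebraMap K M a ^ 3 + 27 * algebraMap K M b ^ 2 ≠ 0 := by
          rw [Pool.Agent.W313.Gr.disc_map]
          exact (_root_.map_ne_zero _).2 hΔ
        have h1 := lfun_modL (k := kM) ℓ (algebraMap K M a) (algebraMap K M b)
        rw [S.lfun_eq hΔM] at hQ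
        rw [hQ, redL_poly, h, Polynomial.coe_zero, zero_mul] at h1
        exact zero_ne_one h1
      have h6 := (rootMultiplicity_pos h5).2 hev
      omega

end Pool.Agent.Results.MP_48b749_nt.ProEllTowersEveryCurve
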