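import Pool.Agent.K9h8.Zh.Par
import Pool.Agent.TH958.T4.Fin

/-!
Quadratic twists of an arbitrary elliptic curve with a point of order two over a global function
field: the exact power of two in the central value, and the conjecture of Birch and Swinnerton-Dyer.

The places where the twists are ramified have an even number of points on the reduction, so that the
central values are divisible by a high power of two, and congruences modulo two give nothing.
-/

set_option autoImplicit false
set_option linter.all false
set_option maxHeartbeats 4000000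

open Polynomial FF Module Pool.Agent.W343.BSD

namespace Pool.Agent.Results.MP_48b749_nt.TwistsExactPowerOfTwo

section places

variable {k K : Type} [Field k] [Field K] [Algebra k K]

/-- The curve `y ^ 2 = x ^ 3 + a x + b` has good reduction at `v`. -/
def Good (v : Place k K) (a b : K) : Prop := v.ord (minDisc v a b) = 0

/-- The curve has multiplicative reduction at `v`: the reduction is not good and the trace is `1` or
`-1`, not `0`. -/
def Multiplicative (v : Place k K) (a b : K) : Prop := ¬ Good v a b ∧ S.trace v a b ≠ 0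

/-- `u` is a square in the completion at `v`. -/
def LocalSquare (v : Place k K) (u : K) : Prop := ∃ s : K, u = s ^ 2 ∨ v.ord u < v.ord (u - s ^ 2)

/-- The order of vanishing modulo two of a polynomial at the central point `1 / q`: as `q` is odd, this is
the multiplicity of the zero `1`. -/
noncomputable def orderModTwo (P : ℤ[X]) : ℕ :=
  (P.map (Int.castRingHom (ZMod 2))).rootMultiplicity 1

open Classical in
/-- The weight of a place of bad reduction: `2 ^ v₂(deg v)` for multiplicative reduction and
`2 * 2 ^ v₂(deg v)` for additive reduction. -/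
noncomputable def weight (v : Place k K) (a b : K) : ℕ :=
  (if S.trace v a b = 0 then 2 else 1) * 2 ^ padicValNat 2 (S.deg v)

/-- The `D_i` are elements of `K` and the `v_i` different places of `K` such that `K(√D_i)` is ramified
over `K` exactly at `v_i`; the curve has good reduction at `v_i` and the number `q_v + 1 - a_v` of points
over the residue field is congruent to `2` modulo `4`; the places of multiplicative reduction are split
in `K(√D_i)`. -/
structure IsTwistData {n : ℕ} (a b : K) (D : Fin n → K) (v : Fin n → Place k K) : Prop where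
  ne : ∀ i, D i ≠ 0
  different : Function.Injective v
  ramified : ∀ i, Odd ((v i).ord (D i))
  unramified : ∀ i (w : Place k K), w ≠ v i → Even (w.ord (D i))
  good : ∀ i, Good (v i) a b
  points : ∀ i, ((Nat.card (S.Res (v i)) : ℤ) + 1 - S.trace (v i) a b) % 4 = 2
  split : ∀ w : Place k K, Multiplicative w a b → ∀ i, LocalSquare w (D i)

end places

open Classical in
/-- The rank of `E : y ^ 2 = x ^ 3 + a x + b` over `K` is equal to the order of vanishing of its
`L`-function at the central point `T = 1 / |k|`, and both are zero: if the `L`-function is an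
integral polynomial with a zero of order `r` at the central point and if the rank is at most `r`,
then `r` and the rank are zero. -/
def RankAndOrderZero (k : Type) {K : Type} [Field k] [Field K] [Algebra k K] (a b : K) : Prop :=
  ∀ r : ℕ, Pool.Agent.W313.Gr.HasOrder k a b r →
    Module.rank ℤ (⟨0, 0, 0, a, b⟩ : WeierstrassCurve K).toAffine.Point ≤ r →
      r = 0 ∧ Module.rank ℤ (⟨0, 0, 0, a, b⟩ : WeierstrassCurve K).toAffine.Point = 0

/-- Let `K` be the function field of a curve over the field `k` with `q` elements, `q` prime to `6`, and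
let `E : y ^ 2 = x ^ 3 + a x + b` be an elliptic curve over `K` with a `K`-rational point of order two.
The `L`-functions of `E` and its quadratic twists are integral polynomials (this is well known).

(1) The order of vanishing modulo two of `L(T, E)` at `1 / q`, plus four, is the sum of twice the order
of vanishing modulo two of the numerator of the zeta function of `K`, and of the weights of the places of
bad reduction. This gives a necessary and sufficient condition for `L(1 / q, E)` to be odd.

(2) Let `L(1 / q, E)` be odd. Let `D_1, ..., D_n` be such that `K(√D_i)` is ramified exactly at one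
place `v_i`, where `E` has good reduction and the number of points is congruent to `2` modulo `4`, and
that the places of multiplicative reduction are split in `K(√D_i)`. Then the central value
`L(1 / q, E_D)` of the quadratic twist of `E` by `D = D_1 ⋯ D_n` is not zero, the exponent of two in
the rational number `L(1 / q, E_D)` is `n`, and the rank of `E_D` and the order of vanishing are zero. -/
theorem result (k K : Type) [Field k] [Finite k] (h6 : (6 : k) ≠ 0)
    [Field K] [Algebra k K] (hK : IsCurveField k K) (a b : K) (hΔ : 4 * a ^ 3 + 27 * b ^ 2 ≠ 0)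
    (x : K) (hx : x ^ 3 + a * x + b = 0)
    (hpoly : ∀ c : K, c ≠ 0 → ∃ P : ℤ[X], S.Lfun k (c ^ 2 * a) (c ^ 3 * b) = (P : PowerSeries ℤ))
    (P : ℤ[X]) (hP : S.Lfun k a b = (P : PowerSeries ℤ)) :
    (∀ Z : ℤ[X], S.IsZetaNum k K Z →
      ∃ B : Finset (Place k K), (∀ v, v ∈ B ↔ ¬ Good v a b) ∧
        orderModTwo P + 4 = 2 * orderModTwo Z + ∑ v ∈ B, weight v a b) ∧
    (orderModTwo P = 0 → ∀ (n : ℕ) (D : Fin n → K) (v : Fin n → Place k K), IsTwistData a b D v →
      (∀ Q : ℤ[X], S.Lfun k ((∏ i, D i) ^ 2 * a) ((∏ i, D i) ^ 3 * b) = (Q : PowerSeries ℤ) →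
        aeval (((Nat.card k : ℕ) : ℚ)⁻¹) Q ≠ 0 ∧
        padicValRat 2 (aeval (((Nat.card k : ℕ) : ℚ)⁻¹) Q) = n) ∧
      RankAndOrderZero k ((∏ i, D i) ^ 2 * a) ((∏ i, D i) ^ 3 * b)) := by
  classical
  have hFF : FF.IsFF k K := ⟨hK.essFiniteType, hK.trdeg_eq_one⟩
  have hev := Pool.Agent.W313.Gr.pointsDvd_two (k := k) h6 hΔ hx
  have hP' := hP
  rw [S.lfun_eq hΔ] at hP'
  constructor
  · intro Z hZ
    have hbf := bad_finite (k := k) (K := K) hΔ
    have hmB : ∀ v, v ∈ hbf.toFinset ↔ v.ord (minDisc v a b) ≠ 0 := by
      intro v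
      rw [Set.Finite.mem_toFinset, Ne, S.ord_disc_iff v hΔ, not_not]
      rfl
    refine ⟨hbf.toFinset, hmB, ?_⟩
    have h1 := Pool.Agent.K9h8.Zh.parity h6 (Pool.Agent.TH958.T4.constDeg_eq_one hK.algClosed) hev
      hΔ hP' ((S.isZetaNum_iff Z).1 hZ) hbf.toFinset hmB
    unfold orderModTwo weight
    rw [h1]
    congr 1
    refine Finset.sum_congr rfl fun v _ => ?_
    rw [S.deg_eq]
  · intro hodd n D v hD
    obtain ⟨y, hy, hyu⟩ := Pool.Agent.K9h8.Zh.exists_inv (Pool.Agent.K9h8.Zh.card_k_odd h6)
    have hdata : Pool.Agent.K9h8.Zh.Data k a b D v := {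
      ne := hD.ne
      inj := hD.different
      ram := hD.ramified
      unr := fun i w hw => by
        rw [Int.not_odd_iff_even]
        exact hD.unramified i w hw
      good := hD.good
      pts := hD.points
      even := hev
      split := fun w h1 h2 i => hD.split w ⟨h1, h2⟩ i }
    have hP2 : ∀ J : Finset (Fin n), ∃ Q : ℤ[X],
        Lfun k (Pool.Agent.K9h8.Zh.DJ D J ^ 2 * a) (Pool.Agent.K9h8.Zh.DJ D J ^ 3 * b) =
          (Q : PowerSeries ℤ) := by
      intro J
      obtain ⟨Q, hQ⟩ := hpoly _ (Pool.Agent.K9h8.Zh.DJ_ne hdata J)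
      exact ⟨Q, by rw [← S.lfun_eq (Pool.Agent.K9h8.Zh.disc_ne hdata hΔ J)]; exact hQ⟩
    choose R hR using hP2
    have hR0 : R ∅ = P := by
      apply Polynomial.coe_injective
      rw [← hR, ← hP', Pool.Agent.K9h8.Zh.DJ_empty, one_pow, one_pow, one_mul, one_mul]
    have hunit : IsUnit (aeval y (R ∅)) := by
      rw [hR0, Pool.Agent.K9h8.Zh.isUnit_iff_toZMod]
      have h1 : PadicInt.toZMod (aeval y P) = (P.map (Int.castRingHom (ZMod 2))).eval 1 := by
        rw [Polynomial.aeval_def, Polynomial.hom_eval₂, Pool.Agent.K9h8.Zh.toZMod_unit hyu,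
          Polynomial.eval_map]
        congr 1
        exact RingHom.ext_int _ _
      rw [h1]
      intro h2
      have h3 : P.map (Int.castRingHom (ZMod 2)) ≠ 0 := by
        intro h
        have h4 := lfun_modL (k := k) 2 a b
        rw [hP', redL_poly, h, Polynomial.coe_zero, zero_mul] at h4
        exact zero_ne_one h4
      have h4 := (rootMultiplicity_pos h3).2 h2
      unfold orderModTwo at hodd
      omega
    have hmain := Pool.Agent.K9h8.Zh.main h6 hΔ hy hyu n (Fin n) D v (Fintype.card_fin n) hdata R hR
      hunit
    have hval : ∀ Q : ℤ[X], S.Lfun k ((∏ i, D i) ^ 2 * a) ((∏ i, D i) ^ 3 * b) =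
        (Q : PowerSeries ℤ) → aeval (((Nat.card k : ℕ) : ℚ)⁻¹) Q ≠ 0 ∧
        padicValRat 2 (aeval (((Nat.card k : ℕ) : ℚ)⁻¹) Q) = n := by
      intro Q hQ
      have h1 : R Finset.univ = Q := by
        apply Polynomial.coe_injective
        rw [← hR, ← hQ, ← S.lfun_eq (Pool.Agent.K9h8.Zh.disc_ne hdata hΔ Finset.univ)]
        rfl
      rw [← h1]
      exact Pool.Agent.K9h8.Zh.val_of_exact hy hmain
    refine ⟨hval, ?_⟩
    intro r hr hle
    have h1 : r = 0 := by
      obtain ⟨Q, hQ, hPr⟩ := hr
      obtain ⟨H, hH⟩ := Pool.Agent.TH943.KD.dvd_of_mult (Nat.card_pos (α := k)).ne' hPr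
      by_contra hr0
      apply (hval Q hQ).1
      rw [hH, map_mul, map_pow, map_sub, map_one, map_mul, Polynomial.aeval_C, Polynomial.aeval_X]
      have hq0 : ((Nat.card k : ℕ) : ℚ) ≠ 0 := by
        have := (Nat.card_pos (α := k)).ne'
        exact_mod_cast this
      have h3 : (algebraMap ℤ ℚ) (Nat.card k : ℤ) = ((Nat.card k : ℕ) : ℚ) := by simp
      rw [h3, mul_inv_cancel₀ hq0, sub_self, zero_pow hr0, zero_mul]
    subst h1
    exact ⟨rfl, le_antisymm (by simpa using hle) (Cardinal.zero_le _)⟩

end Pool.Agent.Results.MP_48b749_nt.TwistsExactPowerOfTwo
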