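import Pool.Agent.K9h8.Tow.Unr
import Pool.Agent.TH958.T4.Fin

/-!
The order of vanishing and the Birch and Swinnerton-Dyer conjecture over the finite subextensions of
the maximal everywhere unramified pro-`p` extension of a global function field of characteristic `p`,
for an arbitrary elliptic curve.
-/

set_option autoImplicit false
set_option linter.all false
set_option maxHeartbeats 4000000

open Polynomial FF Module Pool.Agent.W343.BSD

namespace Pool.Agent.Results.MP_48b749_nt.UnramifiedProPTowers

/-- The place `w` of `L` lies above the place `v` of `K`, with ramification index `e`. -/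
def LiesOver {k K L : Type} [Field k] [Field K] [Algebra k K] [Field L] [Algebra k L] [Algebra K L]
    (w : Place k L) (v : Place k K) (e : ℕ) : Prop :=
  0 < e ∧ ∀ f : K, w.ord (algebraMap K L f) = e * v.ord f

/-- `L` is a finite Galois extension of `K` of degree a power of `p`, unramified at all places. -/
structure IsUnramifiedProP (k K L : Type) [Field k] [Field K] [Algebra k K] [Field L] [Algebra k L]
    [Algebra K L] (p : ℕ) : Prop where
  finite : FiniteDimensional K L
  galois : IsGalois K L
  power : ∃ s : ℕ, finrank K L = p ^ s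
  unramified : ∀ (v : Place k K) (w : Place k L) (e : ℕ), LiesOver w v e → e = 1

/-- The functional equation `(q T) ^ N Q(1 / (q ^ 2 T)) = ε Q(T)` with `N` the degree of `Q` and
`ε = ± 1`, in terms of the coefficients: `q ^ i c_j = ε q ^ j c_i` for `i + j = N`. -/
def FunctionalEquation (q : ℕ) (Q : ℤ[X]) : Prop :=
  ∃ ε : ℤ, (ε = 1 ∨ ε = -1) ∧ ∀ i j : ℕ, i + j = Q.natDegree →
    (q : ℤ) ^ i * Q.coeff j = ε * ((q : ℤ) ^ j * Q.coeff i)

/-- The degree of the polynomial modulo the prime `p`. -/
noncomputable def degMod (p : ℕ) (P : ℤ[X]) : ℕ := (P.map (Int.castRingHom (ZMod p))).natDegree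

open Classical in
/-- The rank of `E : y ^ 2 = x ^ 3 + a x + b` over `M` is equal to the order of vanishing of its
`L`-function at the central point `T = 1 / |kM|`, and both are zero: if the `L`-function is an
integral polynomial with a zero of order `r` at the central point and if the rank is at most `r`,
then `r` and the rank are zero. -/
def RankAndOrderZero (kM : Type) {M : Type} [Field kM] [Field M] [Algebra kM M] (a b : M) : Prop :=
  ∀ r : ℕ, Pool.Agent.W313.Gr.HasOrder kM a b r →
    Module.rank ℤ (⟨0, 0, 0, a, b⟩ : WeierstrassCurve M).toAffine.Point ≤ r →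
      r = 0 ∧ Module.rank ℤ (⟨0, 0, 0, a, b⟩ : WeierstrassCurve M).toAffine.Point = 0

/-- Let `K` be the function field of a curve over the field `k` with `q` elements, of characteristic
`p ≥ 5`, let `E : y ^ 2 = x ^ 3 + a x + b` be an arbitrary elliptic curve over `K`, with
`L(T, E/K) = P(T)` a polynomial of degree `N`, and let `u` be the degree of `P` modulo `p` (this is
the number of inverse zeros of `L(T, E/K)` that are `p`-adic units).

Let `M` be any finite extension of `K` in the maximal pro-`p` extension of `K` that is unramified at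
all places, with field of constants `kM`. Suppose that `L(T, E/M) = Q(T)` with `Q` in `ℤ[T]` of
degree `N [M : K] / [kM : k]` satisfying the functional equation (these are well known facts).

Then the degree of `Q` modulo `p` is `u [M : K] / [kM : k]`, the order of vanishing of `L(T, E/M)` at
the central point is at most `(N - 2 u) [M : K] / [kM : k]`, and if `N = 2 u`, the rank of `E(M)`
and the order of vanishing are equal to zero, as soon as the rank is at most this order. -/
theorem result (p : ℕ) [Fact p.Prime] (hp : 5 ≤ p) (k K : Type) [Field k] [Finite k] [CharP k p]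
    [Field K] [Algebra k K] (hK : IsCurveField k K) (a b : K) (hΔ : 4 * a ^ 3 + 27 * b ^ 2 ≠ 0)
    (P : ℤ[X]) (hP : S.Lfun k a b = (P : PowerSeries ℤ))
    (L : Type) [Field L] [Algebra k L] [Algebra K L] [IsScalarTower k K L]
    (hL : IsUnramifiedProP k K L p)
    (kM M : Type) [Field kM] [Finite kM] [Field M] [Algebra kM M] [Algebra k kM] [Algebra k M]
    [Algebra K M] [Algebra M L] [IsScalarTower k kM M] [IsScalarTower k K M] [IsScalarTower K M L]
    (hM : IsCurveField kM M) (Q : ℤ[X])
    (hQ : S.Lfun kM (algebraMap K M a) (algebraMap K M b) = (Q : PowerSeries ℤ)) :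
    finrank k kM * degMod p Q = finrank K M * degMod p P ∧
    (finrank k kM * Q.natDegree = finrank K M * P.natDegree →
      FunctionalEquation (Nat.card kM) Q →
      (∀ m : ℕ, (1 - C (Nat.card kM : ℤ) * X) ^ m ∣ Q →
        finrank k kM * m + finrank K M * (2 * degMod p P) ≤ finrank K M * P.natDegree) ∧
      (P.natDegree = 2 * degMod p P →
        RankAndOrderZero kM (algebraMap K M a) (algebraMap K M b))) := by
  classical
  have hFF : FF.IsFF k K := ⟨hK.essFiniteType, hK.trdeg_eq_one⟩
  have hFFM : FF.IsFF kM M := ⟨hM.essFiniteType, hM.trdeg_eq_one⟩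
  have hpp : p.Prime := Fact.out
  have i1 := hL.finite
  have i2 := hL.galois
  obtain ⟨s, hs⟩ := hL.power
  have i3 : FiniteDimensional K M := FiniteDimensional.left K M L
  have i4 : FiniteDimensional M L := FiniteDimensional.right K M L
  have i5 : IsGalois M L := IsGalois.tower_top_of_isGalois K M L
  have i6 : FF.IsFF k M := isFF_of_finite (K := K)
  have t1 : IsScalarTower k M L := IsScalarTower.of_algebraMap_eq fun x => by
    rw [IsScalarTower.algebraMap_apply k K L, IsScalarTower.algebraMap_apply K M L,
      ← IsScalarTower.algebraMap_apply k K M]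
  have i7 : FF.IsFF k L := isFF_of_finite (K := K)
  have hΔM : 4 * algebraMap K M a ^ 3 + 27 * algebraMap K M b ^ 2 ≠ 0 := by
    rw [Pool.Agent.W313.Gr.disc_map]
    exact (_root_.map_ne_zero _).2 hΔ
  have i8 : Module.Finite k kM := Module.Finite.of_finite
  have h0 : 0 < finrank k kM := finrank_pos
  have hdeg : finrank k kM * degMod p Q = finrank K M * degMod p P := by
    have hP' := hP
    rw [S.lfun_eq hΔ] at hP'
    have hQ' := hQ
    rw [S.lfun_eq hΔM] at hQ'
    exact Pool.Agent.K9h8.Tow.unr_degree_const (k := k) (K := K) (M := M) (L := L) (kM := kM)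
      (l := p) hs hΔ hL.unramified hP' hQ'
  have hpq : p ∣ Nat.card kM := by
    have h1 : CharP kM p := charP_of_injective_algebraMap (algebraMap k kM).injective p
    have h2 : ((Nat.card kM : ℕ) : kM) = 0 := by
      have : Fintype kM := Fintype.ofFinite kM
      rw [Nat.card_eq_fintype_card]
      exact FiniteField.cast_card_eq_zero kM
    exact (CharP.cast_eq_zero_iff kM p _).1 h2
  have hq0 : Nat.card kM ≠ 0 := (Nat.card_pos (α := kM)).ne'
  have hQ0 : Q ≠ 0 := by
    rintro rfl
    have h1 := lfun_modL (k := kM) p (algebraMap K M a) (algebraMap K M b)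
    rw [S.lfun_eq hΔM] at hQ
    rw [hQ, redL_poly, Polynomial.map_zero, Polynomial.coe_zero, zero_mul] at h1
    exact zero_ne_one h1
  refine ⟨hdeg, fun hdQ hFE => ?_⟩
  have hbound : ∀ m : ℕ, (1 - C (Nat.card kM : ℤ) * X) ^ m ∣ Q →
      finrank k kM * m + finrank K M * (2 * degMod p P) ≤ finrank K M * P.natDegree := by
    rintro m ⟨H, hH⟩
    have h1 := Pool.Agent.K9h8.Tow.fe_order hpq hq0 hQ0 hH le_rfl hFE
    have h2 := Nat.mul_le_mul_left (finrank k kM) h1
    rw [hdQ, Nat.mul_add] at h2
    refine le_trans (le_of_eq ?_) h2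
    change _ = finrank k kM * m + finrank k kM * (2 * degMod p Q)
    congr 1
    rw [Nat.mul_left_comm, ← hdeg, Nat.mul_left_comm]
  refine ⟨hbound, fun hN r hr hle => ?_⟩
  have h1 : r = 0 := by
    obtain ⟨P', hP', hPr⟩ := hr
    obtain ⟨H, hH⟩ := Pool.Agent.TH943.KD.dvd_of_mult hq0 hPr
    have hPQ : P' = Q := by
      apply Polynomial.coe_injective
      rw [← hP', hQ]
    have h2 := hbound r ⟨H, by rw [← hPQ, hH]⟩
    rw [hN] at h2
    have h3 : finrank k kM * r = 0 := by omega
    exact (mul_eq_zero.1 h3).resolve_left h0.ne'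
  subst h1
  exact ⟨rfl, le_antisymm (by simpa using hle) (Cardinal.zero_le _)⟩

end Pool.Agent.Results.MP_48b749_nt.UnramifiedProPTowers
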